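import Pool.Agent.helper7.FI2.SpecK

set_option autoImplicit false

namespace Pool.Agent.FI2

open Pool.Agent.helper58.DC Pool.Agent.DI Pool.Agent.GR Pool.Agent.OB Pool.Agent.DR Pool.Agent.FI

theorem F122_nz (hFEQ : FEQ_stmt) {G : Type} [Group G] [Finite G] (M : Ideal (integralClosure ℤ ℂ))
    (P : Subgroup G) : nz P ≤ nz (cz P) := by
  intro g hg
  have h1 := (hFEQ G M g 1 P P P (fun _ => 0) (fun _ => 0) (fun _ => 0)).2.1
  have h2 := (hFEQ G M g 1 (cz P) P P (fun _ => 0) (fun _ => 0) (fun _ => 0)).2.1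
  rw [← h2.2.2.2.1, ← h1.1, (h1.2.2.2.1).2 hg]

theorem F122_cjS (hFEQ : FEQ_stmt) {G : Type} [Group G] [Finite G] (M : Ideal (integralClosure ℤ ℂ))
    (K : Subgroup G) (g : G) (hg : g ∈ nz K) : cjS g K = K :=
  ((hFEQ G M g 1 K K K (fun _ => 0) (fun _ => 0) (fun _ => 0)).2.1.2.2.2.1).2 hg

theorem F122 (hFCN2 : FCN2_stmt) (hFCL2 : FCL2_stmt) (hFOV : FOV_stmt) (hCFA : CFA_stmt) (hFEQ : FEQ_stmt)
    (hIF : IF_stmt) : F122_stmt := by
  classical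
  intro p M hS G _ _ P N hP hPN hcN hNn χ hχ hcy
  have hp : p.Prime := hS.pr
  have hfact : Fact p.Prime := ⟨hp⟩
  have hNK : N ≤ nz (cz P) := hNn.trans (F122_nz hFEQ M P)
  have hBst : ∀ n ∈ N, ∀ ψ ∈ Blk M χ (cz P), cjF n ψ ∈ Blk M χ (cz P) := by
    rintro n hn ψ ⟨h1, h2⟩
    have h3 := (hFEQ G M n 1 P P (cz P) (fun _ => 0) ψ χ).2.2.2
    refine ⟨?_, (h3.2.2.1 hχ).2.2 h2⟩
    have h4 := h3.1.1 h1
    rwa [F122_cjS hFEQ M (cz P) n (hNK hn)] at h4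
  have hset : Blk M χ N = {φ : G → ℂ | φ ∈ IrrOn N ∧ ∃ ψ ∈ Blk M χ (cz P), ∃ e : ℕ, 0 < e ∧
      OverE (cz P) N φ ψ e} := by
    ext φ
    constructor
    · rintro ⟨h1, h2⟩
      obtain ⟨ψ, h3, e, h4, h5⟩ := (hCFA G (cz P) N hcN hNK).1 φ h1
      refine ⟨h1, ψ, ⟨h3, ?_⟩, e, h4, h5⟩
      exact (hFOV p M hS G P N hP hPN hcN hNn φ h1 ψ h3 e h4 h5 χ).1 h2
    · rintro ⟨h1, ψ, h3, e, h4, h5⟩
      exact ⟨h1, (hFOV p M hS G P N hP hPN hcN hNn φ h1 ψ h3.1 e h4 h5 χ).2 h3.2⟩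
  constructor
  · rw [hset]
    exact hFCN2 G (cz P) N hcN hNK (Blk M χ (cz P)) (fun ψ h => h.1) hBst hcy
  · intro d hd φ hφ
    rw [hset] at hφ
    obtain ⟨h1, ψ, h3, e, h4, h5⟩ := hφ
    obtain ⟨hr, hr2, n, hn, hdn⟩ := hd ψ h3
    obtain ⟨h6, h6'⟩ := (hFCL2 G (cz P) N hcN hNK ψ h3.1 (hcy ψ h3)).2 φ h1 e h4 h5
    obtain ⟨m, hm0, hm⟩ := ((hIF G N).2 φ h1).1
    obtain ⟨n', hn0, hn'⟩ := ((hIF G (cz P)).2 ψ h3.1).1
    have hnn : n' = n := by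
      rw [hn'] at hn
      exact_mod_cast hn
    subst hnn
    have hKS : cz P ≤ stF N ψ := by
      intro k hk
      refine ⟨hcN hk, ?_⟩
      funext g
      have h2 := ((hIF G (cz P)).2 ψ h3.1).2.1 k⁻¹ ((cz P).inv_mem hk) g
      simp only [funMap, MulAut.conj_inv_apply]
      simpa using h2
    have hcard : Nat.card (cz P) * (cz P).relIndex (stF N ψ) = Nat.card (stF N ψ) := by
      have h := Subgroup.relIndex_mul_relIndex (⊥ : Subgroup G) (cz P) (stF N ψ) bot_le hKS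
      rwa [Subgroup.relIndex_bot_left, Subgroup.relIndex_bot_left] at h
    have h7 : m * (Nat.card (cz P) * (cz P).relIndex (stF N ψ)) = e * Nat.card N * n' := by
      rw [hcard]
      rw [hm, hn'] at h6
      exact_mod_cast h6
    have hK0 : Nat.card (cz P) ≠ 0 := Nat.card_pos.ne'
    have hN0 : Nat.card N ≠ 0 := Nat.card_pos.ne'
    have he : ¬ p ∣ e := by
      intro hd
      have h8 := Nat.le_of_dvd h4 hd
      rw [← hcard, mul_comm] at h6'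
      have h9 : e ^ 2 ≤ (cz P).relIndex (stF N ψ) := Nat.le_of_mul_le_mul_left h6' Nat.card_pos
      have h10 : p ^ 2 ≤ e ^ 2 := Nat.pow_le_pow_left h8 2
      omega
    refine ⟨m, hm, ?_⟩
    rw [hdn]
    have hr0 : (cz P).relIndex (stF N ψ) ≠ 0 := by
      intro h
      rw [h] at hr
      exact hr (dvd_zero p)
    have h8 := congrArg (padicValNat p) h7
    rw [padicValNat.mul hm0.ne' (mul_ne_zero hK0 hr0), padicValNat.mul hK0 hr0,
      padicValNat.mul (mul_ne_zero h4.ne' hN0) hn0.ne', padicValNat.mul h4.ne' hN0,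
      padicValNat.eq_zero_of_not_dvd hr, padicValNat.eq_zero_of_not_dvd he] at h8
    omega

end Pool.Agent.FI2
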