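import Mathlib
import Pool.Agent.helper7.FI2.SpecH2

/-!
# Project fi2 (MP_baa4d7_al), row HQA: the data of block LA for the whole group
-/

set_option autoImplicit false

namespace Pool.Agent.FI2

open Pool.Agent.helper58.DC Pool.Agent.DI Pool.Agent.GR Pool.Agent.OB Pool.Agent.DR Pool.Agent.FI

theorem HQA_cz_bot (G : Type) [Group G] : cz (⊥ : Subgroup G) = ⊤ := by
  rw [eq_top_iff]
  intro x _
  rw [Subgroup.mem_centralizer_iff]
  intro y hy
  have h1 : y = 1 := Subgroup.mem_bot.1 hy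
  rw [h1, one_mul, mul_one]

theorem HQA_Zc {G : Type} [Group G] {p : ℕ} {D : Subgroup G} (hD : IsPGroup p D)
    (hG : IsOp p (⊤ : Subgroup G) ⊥) : Zc D (⊤ : Subgroup G) = ⊥ := by
  rw [← le_bot_iff]
  refine hG.2 ⟨le_top, hD.to_le inf_le_left, ?_⟩
  intro g _
  rw [Subgroup.mem_normalizer_iff]
  intro u
  constructor
  · intro hu
    have h1 := (Zc_mem.1 hu).2 g (Subgroup.mem_top g)
    have h2 : g * u * g⁻¹ = u := by
      rw [h1]
      group
    rw [h2]
    exact hu
  · intro hu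
    have h1 := (Zc_mem.1 hu).2 g (Subgroup.mem_top g)
    have h2 : g * u * g⁻¹ = u := by
      have h3 : g * (g * u * g⁻¹) = g * u := by
        rw [h1]
        group
      exact mul_left_cancel h3
    rw [h2] at hu
    exact hu

theorem HQA_LAD {p : ℕ} {M : Ideal (integralClosure ℤ ℂ)} {D : Type} [Group D] {X : Type}
    {Z Y : Subgroup D} {I : Subgroup (MulAut D)} {β d : X → D → ℂ} {n : D → ℤ}
    (h : FI3.LAD3 p M Z Y I β d n) (hZ : Z = ⊥) (hY : Y = ⊥) : LAD p M (⊥ : Subgroup D) I β d n := by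
  subst hZ
  subst hY
  exact
    { set := h.set
      odd := h.odd
      com := h.com
      pg := h.pg
      ne := h.ne
      cop := h.cop
      fz := h.fz
      fr := h.fr
      h1 := h.h1
      h2 := h.h2
      h3a := h.h3a
      h3b := h.h3b
      h3c := h.h3c
      h3d := h.h3d
      h4a := h.h4a
      h4b := h.h4b
      h5 := h.h5
      h6 := h.h6
      h7 := h.h7 }

theorem HQA (hQLS : FI3.QLS_stmt) : HQA_stmt := by
  classical
  intro p M hS hp G _ _ D x θ χ h hT hG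
  have hLo := FI3.LoS.of2 h.lo
  have hY : FI3.YY M D θ = ⊥ := FI3.YY_bot h.lo.free hT
  have hZc : Zc D (cz (⊥ : Subgroup G)) = ⊥ := by
    rw [HQA_cz_bot G]
    exact HQA_Zc h.lo.rt.dfa.pgrp hG
  have hD : ¬ D ≤ FI3.YY M D θ := by
    intro hc
    rw [hY] at hc
    exact h.lo.nb (le_bot_iff.1 hc)
  have hgood : ∀ Q ≤ D, ¬ Q ≤ FI3.YY M D θ → Good p M D (cz Q) θ := by
    intro Q hQ hQY
    apply h.good Q hQ
    intro hc
    apply hQY
    rw [hc]
    exact bot_le
  obtain ⟨I, β, n, hI, -, -, hL, -, hN⟩ := hQLS p M hS hp G D x θ χ hLo hD hgood ⊥ bot_le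
  refine ⟨I, β, n, hI, ?_, hN⟩
  apply HQA_LAD hL
  · rw [hZc, Subgroup.bot_subgroupOf]
  · rw [hY, Subgroup.bot_subgroupOf]

end Pool.Agent.FI2
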